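import Pool.Agent.W528.HS.Fin
import Pool.Agent.W715.HS.OC
import Pool.Agent.W326.HS.EI
import Pool.Agent.W111.HS.EC
import Pool.Agent.W63.HS.TR
import Pool.Agent.W804.HS.RD

set_option autoImplicit false

namespace Pool.Agent.Results.MP_b685ef_ag.ReducibleBranchDivisor

open Polynomial Pool.Agent.W528.HS

/-- **Semisimplicity of Frobenius on singular complete cyclic coverings of prime power degree.**

Let `κ` be a finite field with the `p ^ s`-th roots of unity, `Z_i : G_i = 0`, `i = 1, ..., r`,
`2 ≤ r ≤ n + 1`, smooth hypersurfaces in `P^n` over `κ` with normal crossings, `a_i > 0` prime to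
`p` with `∑ a_i deg G_i` divisible by `p ^ s`, and `X : y ^ (p ^ s) = ∏ G_i ^ a_i` the (complete,
singular) cyclic covering of `P^n`. Let `P` be the product over all nonempty `I` of the
characteristic polynomials of Frobenius on the primitive cohomology of the complete intersections
`Z_I = ⋂_{i ∈ I} Z_i`: it is integral, `P = ∏_{x ∈ B} (1 - x T)`, and the number of points of the
complement `U` of the `Z_i` is `∑_{i ≤ n} c_i |L| ^ i + (-1) ^ n ∑_{x ∈ B} x ^ [L : κ]` with integers
`c_i` of sum `0`. The cohomology of `X` is that of `P^n` and the sum of the parts `W` of degree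
`n` belonging to the characters of order `p ^ s` with the functions `F = ∏ G_i ^ (j a_i)`,
`0 < j < p ^ s`; for the Frobenius `Φ` on `W` the Grothendieck-Lefschetz formula gives
`(-1) ^ n tr(Φ ^ [L : κ]) = projSum`.

Theorem: if `P` modulo `p` is squarefree of degree `dim W`, then the eigenvalues of `Φ` are
distinct and `Φ` is semisimple. -/
theorem result (p s : ℕ) (hp : p.Prime) (hs : 1 ≤ s)
    (κ : Type) [Field κ] [Fintype κ] (z : κ) (hz : IsPrimitiveRoot z (p ^ s)) (n : ℕ)
    (F : MvPolynomial (Fin (n + 1)) κ) (E : Type) [Field E] [CharZero E] [IsAlgClosed E]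
    (μ : E) (hμ : IsPrimitiveRoot μ (p ^ s)) (c : ℕ → ℤ) (hc : ∑ i ∈ Finset.range (n + 1), c i = 0)
    (P : ℤ[X]) (hP : P.coeff 0 = 1) (B : Multiset E)
    (hB : P.map (Int.castRingHom E) = (B.map fun x => 1 - C x * X).prod)
    (hU : ∀ (L : Type) [Field L] [Fintype L] [Algebra κ L],
      (projOpen L (F.map (algebraMap κ L)) : E)
        = (∑ i ∈ Finset.range (n + 1), (c i : E) * (Fintype.card L : E) ^ i)
          + (-1) ^ n * (B.map fun x => x ^ Module.finrank κ L).sum)
    (W : Type) [AddCommGroup W] [Module E W] [FiniteDimensional E W] (Φ : Module.End E W)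
    (hΦ : ∀ (L : Type) [Field L] [Fintype L] [Algebra κ L],
      (-1) ^ n * LinearMap.trace E W (Φ ^ Module.finrank κ L)
        = projSum L E (p ^ s) (F.map (algebraMap κ L)) (algebraMap κ L z) μ)
    (hsq : Squarefree (P.map (Int.castRingHom (ZMod p))))
    (hdim : (P.map (Int.castRingHom (ZMod p))).natDegree = Module.finrank E W) :
    Φ.charpoly.Separable ∧ Φ.IsSemisimple := by
  have hsum : ∑ i ∈ Finset.range (n + 1), (c i).toNat = ∑ i ∈ Finset.range (n + 1), (-c i).toNat := by
    have h1 : ∀ i, ((c i).toNat : ℤ) = c i + ((-c i).toNat : ℤ) := by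
      intro i
      have := Int.toNat_sub_toNat_neg (c i)
      omega
    have h2 : ((∑ i ∈ Finset.range (n + 1), (c i).toNat : ℕ) : ℤ)
        = ((∑ i ∈ Finset.range (n + 1), (-c i).toNat : ℕ) : ℤ) := by
      push_cast
      rw [Finset.sum_congr rfl fun i _ => h1 i, Finset.sum_add_distrib, hc, zero_add]
    exact_mod_cast h2
  refine semisimple_e Pool.Agent.W715.HS.OC.main
    Pool.Agent.W326.HS.EI.main Pool.Agent.W111.HS.EC.main Pool.Agent.W63.HS.TR.main
    Pool.Agent.W804.HS.RD.main hp hs κ hz F hμ (fun i => (c i).toNat) (fun i => (-c i).toNat)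
    P hP B hB ?_ Φ hΦ (P.map (Int.castRingHom (ZMod p))) hsq hdim ?_ ?_
  · intro L _ _ _
    rw [hU L]
    congr 1
    refine Finset.sum_congr rfl fun i _ => ?_
    congr 1
    have h3 := Int.toNat_sub_toNat_neg (c i)
    have h4 : (((c i).toNat : ℤ) : E) - (((-c i).toNat : ℤ) : E) = ((c i : ℤ) : E) := by
      rw [← Int.cast_sub, h3]
    rw [← h4]
    push_cast
    rfl
  · intro _
    rw [hsum, mul_comm]
  · intro _
    rw [hsum, mul_comm]

end Pool.Agent.Results.MP_b685ef_ag.ReducibleBranchDivisor
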